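import Mathlib
import Pool.Agent.Run7.h276.Rate
import Pool.Agent.Run7.h276.Mdim

/-!
# The double variational principle for mean dimension fails

The definitions follow the problem file; logarithms are to base 2.
-/

set_option autoImplicit false
set_option linter.unusedVariables false
set_option linter.deprecated false
open Filter Topology MeasureTheory
open scoped ENNReal

namespace Pool.Agent.Results.MP_9896a2_an.NoMinimum

/-- `α` is a finite open cover of `X` -/
def OpenCover {X : Type} [TopologicalSpace X] (α : Set (Set X)) : Prop :=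
  α.Finite ∧ (∀ U ∈ α, IsOpen U) ∧ ⋃₀ α = Set.univ

/-- the join `α ∨ T⁻¹ α ∨ ... ∨ T⁻⁽ⁿ⁻¹⁾ α` -/
def join {X : Type} (T : X → X) (α : Set (Set X)) (n : ℕ) : Set (Set X) :=
  (fun c : Fin n → Set X => ⋂ i : Fin n, (T^[i]) ⁻¹' (c i)) '' {c | ∀ i, c i ∈ α}

/-- `β` refines `α` -/
def Refines {X : Type} (β α : Set (Set X)) : Prop := ∀ V ∈ β, ∃ U ∈ α, V ⊆ U

/-- `ord β`, the maximum over `x` of the number of members of `β` containing `x`, minus one -/
noncomputable def ord {X : Type} (β : Set (Set X)) : ℕ := (⨆ x : X, {U ∈ β | x ∈ U}.ncard) - 1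

/-- `D(α)`, the minimum of `ord β` over the finite open covers `β` refining `α` -/
noncomputable def D {X : Type} [TopologicalSpace X] (α : Set (Set X)) : ℕ :=
  sInf {d | ∃ β : Set (Set X), OpenCover β ∧ Refines β α ∧ d = ord β}

/-- mean dimension -/
noncomputable def mdim {X : Type} [TopologicalSpace X] (T : X → X) : ℝ≥0∞ :=
  ⨆ α : {α : Set (Set X) // OpenCover α},
    limsup (fun n : ℕ => (D (join T α.1 n) : ℝ≥0∞) / (n : ℝ≥0∞)) atTop

/-- `d` is a metric on `X` which induces the topology of `X` -/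
structure CompatibleMetric (X : Type) [TopologicalSpace X] (d : X → X → ℝ) : Prop where
  eq_zero_iff : ∀ x y, d x y = 0 ↔ x = y
  symm : ∀ x y, d x y = d y x
  triangle : ∀ x y z, d x z ≤ d x y + d y z
  isOpen_iff : ∀ U : Set X, IsOpen U ↔ ∀ x ∈ U, ∃ r > 0, ∀ y, d x y < r → y ∈ U

section rate
variable {X : Type} [TopologicalSpace X] [MeasurableSpace X]

/-- `μ` is invariant under `T` -/
def Invariant (T : X → X) (μ : ProbabilityMeasure X) : Prop := (μ : Measure X).map T = μ

/-- mutual information (in bits) of the two coordinates of a random element with law `π`: the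
relative entropy of the joint law with respect to the product of the marginal laws -/
noncomputable def mutualInfo {A B : Type} [MeasurableSpace A] [MeasurableSpace B]
    (π : Measure (A × B)) : ℝ≥0∞ :=
  InformationTheory.klDiv π (π.fst.prod π.snd) / ENNReal.ofReal (Real.log 2)

/-- the rate distortion function `R(d, μ, ε)`; here `π` is the joint law of `ξ` and `η` -/
noncomputable def R (T : X → X) (d : X → X → ℝ) (μ : ProbabilityMeasure X) (ε : ℝ) : ℝ≥0∞ :=
  ⨅ (N : ℕ) (_ : 1 ≤ N) (π : ProbabilityMeasure (X × (Fin N → X)))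
    (_ : (π : Measure (X × (Fin N → X))).fst = μ)
    (_ : ∫ z, (∑ k : Fin N, d (T^[k] z.1) (z.2 k)) / N ∂(π : Measure (X × (Fin N → X))) < ε),
    mutualInfo (π : Measure (X × (Fin N → X))) / N

/-- upper rate distortion dimension -/
noncomputable def urdim (T : X → X) (d : X → X → ℝ) (μ : ProbabilityMeasure X) : ℝ≥0∞ :=
  limsup (fun ε : ℝ => R T d μ ε / ENNReal.ofReal (Real.logb 2 (1 / ε))) (𝓝[>] (0 : ℝ))

/-- lower rate distortion dimension -/
noncomputable def lrdim (T : X → X) (d : X → X → ℝ) (μ : ProbabilityMeasure X) : ℝ≥0∞ :=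
  liminf (fun ε : ℝ => R T d μ ε / ENNReal.ofReal (Real.logb 2 (1 / ε))) (𝓝[>] (0 : ℝ))

end rate

open Run7.h276.Sys Run7.h276.Main Run7.h276.Metric Run7.h276.Rate

theorem mdim_S : mdim (⇑S) = 0 := by
  classical
  unfold mdim
  rw [ENNReal.iSup_eq_zero]
  rintro ⟨α, hα1, hα2, hα3⟩
  rw [← nonpos_iff_eq_zero]
  apply le_of_forall_pos_le_add
  intro τ hτ
  rw [zero_add]
  obtain ⟨r, hr0, hrτ⟩ : ∃ r : ℝ, 0 < r ∧ ENNReal.ofReal r ≤ τ := by
    by_cases hT : τ = ⊤
    · exact ⟨1, one_pos, by rw [hT]; exact le_top⟩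
    · exact ⟨τ.toReal, ENNReal.toReal_pos hτ.ne' hT, by rw [ENNReal.ofReal_toReal hT]⟩
  refine le_trans ?_ hrτ
  have hcov : ∀ x : X, ∃ U ∈ hα1.toFinset, x ∈ U := by
    intro x
    have : x ∈ ⋃₀ α := by rw [hα3]; trivial
    obtain ⟨U, hU, hxU⟩ := this
    exact ⟨U, by simpa using hU, hxU⟩
  refine limsup_le_of_le (by isBoundedDefault) ?_
  filter_upwards [Run7.h276.Mdim.mdim0 hα1.toFinset (fun U hU => hα2 U (by simpa using hU)) hcov
    r hr0, eventually_ge_atTop 1] with n hn hn1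
  obtain ⟨γ, h1, h2, h3, h4⟩ := hn
  have hn0 : (0 : ℝ) < n := by exact_mod_cast hn1
  have hcard : ∀ x : X, {U ∈ (γ : Set (Set X)) | x ∈ U}.ncard ≤ ⌊r * n⌋₊ + 1 := by
    intro x
    have h5 := h4 x (γ.filter fun V => x ∈ V) (Finset.filter_subset _ _)
      (fun V hV => (Finset.mem_filter.1 hV).2)
    have h6 : {U ∈ (γ : Set (Set X)) | x ∈ U} =
        ((γ.filter fun V => x ∈ V : Finset (Set X)) : Set (Set X)) := by
      ext V; simp
    rw [h6, Set.ncard_coe_finset]
    rw [pow_one] at h5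
    have h7 : (((γ.filter fun V => x ∈ V).card - 1 : ℕ) : ℝ) ≤ r * n := by
      rcases Nat.eq_zero_or_pos (γ.filter fun V => x ∈ V).card with h0 | h0
      · rw [h0]; simp; positivity
      · rw [Nat.cast_sub h0]; push_cast; linarith
    have h8 := Nat.le_floor h7
    omega
  have hord : ord (γ : Set (Set X)) ≤ ⌊r * n⌋₊ := by
    unfold ord
    have := ciSup_le hcard
    omega
  have hD : D (join (⇑S) α n) ≤ ⌊r * n⌋₊ := by
    unfold D
    refine (Nat.sInf_le ?_).trans hord
    refine ⟨(γ : Set (Set X)), ⟨γ.finite_toSet, h1, ?_⟩, ?_, rfl⟩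
    · rw [Set.eq_univ_iff_forall]
      intro x
      obtain ⟨V, hV, hxV⟩ := h2 x
      exact ⟨V, hV, hxV⟩
    · intro V hV
      obtain ⟨c, hc1, hc2⟩ := h3 V hV
      have hg : ∀ i : Fin n, ∀ l : Fin 1, 0 ≤ (ge ((i : ℕ) : ℤ)) l ∧
          (ge ((i : ℕ) : ℤ)) l < (n : ℤ) := by
        intro i l
        have := i.isLt
        simp only [ge]
        omega
      refine ⟨⋂ i : Fin n, ((⇑S)^[i]) ⁻¹' (c (ge ((i : ℕ) : ℤ))),
        ⟨fun i => c (ge ((i : ℕ) : ℤ)), fun i => ?_, rfl⟩, ?_⟩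
      · simpa using hc1 (ge ((i : ℕ) : ℤ)) (hg i)
      · intro x hx
        rw [Set.mem_iInter]
        intro i
        rw [Set.mem_preimage, S_iterate]
        exact hc2 x hx (ge ((i : ℕ) : ℤ)) (hg i)
  rw [ENNReal.div_le_iff (by exact_mod_cast hn0.ne') (by simp)]
  have hD' : (D (join (⇑S) α n) : ℝ≥0∞) ≤ (⌊r * n⌋₊ : ℝ≥0∞) := by exact_mod_cast hD
  refine hD'.trans ?_
  rw [← ENNReal.ofReal_natCast n, ← ENNReal.ofReal_mul hr0.le, ← ENNReal.ofReal_natCast]
  exact ENNReal.ofReal_le_ofReal (Nat.floor_le (by positivity))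

theorem lrdim_pos {d : X → X → ℝ} (hd : CompatibleMetric X d) :
    ∃ μ : ProbabilityMeasure X, Invariant (⇑S) μ ∧ 0 < lrdim (⇑S) d μ := by
  have hc : Compat d := ⟨hd.eq_zero_iff, hd.symm, hd.triangle, hd.isOpen_iff⟩
  obtain ⟨μ, K, L, hK, hL, hinv, H⟩ := exists_mu hc
  refine ⟨μ, hinv, ?_⟩
  have hL' : (0 : ℝ) < L := by exact_mod_cast hL
  have hlog2 : 0 < Real.log 2 := Real.log_pos (by norm_num)
  refine lt_of_lt_of_le (ENNReal.ofReal_pos.2 (show 0 < 1 / (16 * (L : ℝ)) by positivity)) ?_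
  unfold lrdim
  refine le_liminf_of_le (by isBoundedDefault) ?_
  have hlogt : Tendsto (fun ε : ℝ => - Real.log ε) (𝓝[>] (0 : ℝ)) atTop :=
    tendsto_neg_atBot_atTop.comp Real.tendsto_log_nhdsGT_zero
  filter_upwards [hlogt.eventually_ge_atTop (2 * (Real.log K + Real.log 21 / 2)),
    hlogt.eventually_ge_atTop (16 * L * ((Real.log K + Real.log 21 / 2) / (4 * L) +
      2 * Real.log 2)), hlogt.eventually_ge_atTop 1, self_mem_nhdsWithin] with ε h1 h2 h3 hε
  have hε0 : (0 : ℝ) < ε := hε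
  have hs0 : 0 < Real.sqrt (21 * ε) := Real.sqrt_pos.2 (by positivity)
  have hlogs : Real.log (K * Real.sqrt (21 * ε)) =
      Real.log K + (Real.log 21 + Real.log ε) / 2 := by
    rw [Real.log_mul hK.ne' hs0.ne', Real.log_sqrt (by positivity),
      Real.log_mul (by norm_num) hε0.ne']
  have hKε : K * Real.sqrt (21 * ε) ≤ 1 := by
    have h4 : Real.log (K * Real.sqrt (21 * ε)) ≤ 0 := by
      rw [hlogs]
      linarith
    by_contra hcon
    push Not at hcon
    exact absurd (Real.log_pos hcon) (not_lt.2 h4)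
  set v : ℝ := Real.log (1 / (K * Real.sqrt (21 * ε))) / (4 * L) - 2 * Real.log 2 with hv
  have hv1 : (1 / (16 * (L : ℝ))) * (- Real.log ε) ≤ v := by
    have e1 : v = (- Real.log ε) / (8 * L) - ((Real.log K + Real.log 21 / 2) / (4 * L) +
        2 * Real.log 2) := by
      rw [hv, one_div, Real.log_inv, hlogs]
      field_simp
      ring
    have e2 : (Real.log K + Real.log 21 / 2) / (4 * L) + 2 * Real.log 2 ≤
        (- Real.log ε) / (16 * L) := by
      rw [le_div_iff₀ (by positivity)]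
      linarith
    have e3 : (1 / (16 * (L : ℝ))) * (- Real.log ε) =
        (- Real.log ε) / (8 * L) - (- Real.log ε) / (16 * L) := by
      field_simp
      ring
    rw [e1, e3]
    linarith
  have hR : ENNReal.ofReal (v / Real.log 2) ≤ R (⇑S) d μ ε := by
    unfold R
    refine le_iInf fun N => le_iInf fun hN => le_iInf fun π => le_iInf fun hπ =>
      le_iInf fun hdist => ?_
    have hN0 : (0 : ℝ) < N := by exact_mod_cast hN
    have h5 := H ε hε0 hKε N hN (π : Measure (X × (Fin N → X))) hπ (by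
      rw [integral_div, div_lt_iff₀ hN0] at hdist
      rw [mul_comm (N : ℝ)]
      exact hdist.le)
    unfold mutualInfo
    rw [ENNReal.le_div_iff_mul_le (Or.inl (by exact_mod_cast hN0.ne'))
      (Or.inl (ENNReal.natCast_ne_top N)), ENNReal.le_div_iff_mul_le
      (Or.inl (ENNReal.ofReal_pos.2 hlog2).ne') (Or.inl ENNReal.ofReal_ne_top)]
    refine le_trans (le_of_eq ?_) h5
    rw [← ENNReal.ofReal_natCast N, ← ENNReal.ofReal_mul' hN0.le, ← ENNReal.ofReal_mul' hlog2.le]
    congr 1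
    rw [hv]
    field_simp
  have hlb : 0 < Real.logb 2 (1 / ε) := by
    unfold Real.logb
    apply div_pos _ hlog2
    rw [one_div, Real.log_inv]
    linarith
  rw [ENNReal.le_div_iff_mul_le (Or.inl (ENNReal.ofReal_pos.2 hlb).ne')
    (Or.inl ENNReal.ofReal_ne_top), ← ENNReal.ofReal_mul (by positivity)]
  refine le_trans (ENNReal.ofReal_le_ofReal ?_) hR
  unfold Real.logb
  rw [one_div ε, Real.log_inv, ← mul_div_assoc]
  exact div_le_div_of_nonneg_right hv1 hlog2.le

/-- There is a system of mean dimension zero with the property that each compatible metric admits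
an invariant probability measure of positive (lower) rate distortion dimension; so neither of the
two equalities of the double variational principle holds for it. -/
theorem result : ∃ (X : Type) (_ : TopologicalSpace X) (_ : CompactSpace X)
    (_ : TopologicalSpace.MetrizableSpace X) (_ : MeasurableSpace X) (_ : BorelSpace X)
    (T : X ≃ₜ X),
    mdim (⇑T) = 0 ∧
    (∀ d : X → X → ℝ, CompatibleMetric X d →
      ∃ μ : ProbabilityMeasure X, Invariant (⇑T) μ ∧ 0 < lrdim (⇑T) d μ ∧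
        0 < urdim (⇑T) d μ) ∧
    ¬ IsLeast {v : ℝ≥0∞ | ∃ d : X → X → ℝ, CompatibleMetric X d ∧
      v = ⨆ (μ : ProbabilityMeasure X) (_ : Invariant (⇑T) μ), urdim (⇑T) d μ} (mdim (⇑T)) ∧
    ¬ IsLeast {v : ℝ≥0∞ | ∃ d : X → X → ℝ, CompatibleMetric X d ∧
      v = ⨆ (μ : ProbabilityMeasure X) (_ : Invariant (⇑T) μ), lrdim (⇑T) d μ}
        (mdim (⇑T)) := by
  have key : ∀ d : X → X → ℝ, CompatibleMetric X d →
      ∃ μ : ProbabilityMeasure X, Invariant (⇑S) μ ∧ 0 < lrdim (⇑S) d μ ∧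
        0 < urdim (⇑S) d μ := by
    intro d hd
    obtain ⟨μ, h1, h2⟩ := lrdim_pos hd
    refine ⟨μ, h1, h2, lt_of_lt_of_le h2 ?_⟩
    exact liminf_le_limsup
  refine ⟨X, inferInstance, inferInstance, inferInstance, inferInstance, inferInstance, S,
    mdim_S, key, ?_, ?_⟩
  · rintro ⟨⟨d, hd, hv⟩, _⟩
    obtain ⟨μ, h1, _, h2⟩ := key d hd
    rw [mdim_S] at hv
    have h3 : urdim (⇑S) d μ ≤ ⨆ (μ : ProbabilityMeasure X) (_ : Invariant (⇑S) μ),
        urdim (⇑S) d μ := le_iSup₂ (f := fun (μ : ProbabilityMeasure X)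
          (_ : Invariant (⇑S) μ) => urdim (⇑S) d μ) μ h1
    rw [← hv] at h3
    exact absurd h2 (not_lt.2 h3)
  · rintro ⟨⟨d, hd, hv⟩, _⟩
    obtain ⟨μ, h1, h2, _⟩ := key d hd
    rw [mdim_S] at hv
    have h3 : lrdim (⇑S) d μ ≤ ⨆ (μ : ProbabilityMeasure X) (_ : Invariant (⇑S) μ),
        lrdim (⇑S) d μ := le_iSup₂ (f := fun (μ : ProbabilityMeasure X)
          (_ : Invariant (⇑S) μ) => lrdim (⇑S) d μ) μ h1
    rw [← hv] at h3
    exact absurd h2 (not_lt.2 h3)

end Pool.Agent.Results.MP_9896a2_an.NoMinimum
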